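import Pool.Agent.helper22.DL.SpecE1

namespace Pool.Agent.DL

open Matrix Complex MeasureTheory Set Filter Topology
open scoped ComplexOrder Manifold ContDiff ComplexConjugate

noncomputable section

theorem ERA : ERA_stmt := by
  intro φ S U hS hφ hU hd z₀ hz₀
  obtain ⟨ε, hε, hball⟩ := Metric.isOpen_iff.1 hU z₀ hz₀
  have hlow : ∀ z ∈ Metric.ball z₀ (ε / 2), ∀ ξ ∈ S, ε / 2 ≤ ‖z - ξ‖ := by
    intro z hz ξ hξ
    have h1 : ξ ∉ Metric.ball z₀ ε := fun h => Set.disjoint_left.1 hd (hball h) hξ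
    rw [Metric.mem_ball, not_lt, dist_eq_norm] at h1
    rw [Metric.mem_ball, dist_eq_norm] at hz
    have h2 : ‖ξ - z₀‖ ≤ ‖z - ξ‖ + ‖z - z₀‖ := by
      have : ξ - z₀ = -(z - ξ) + (z - z₀) := by ring
      rw [this]
      exact (norm_add_le _ _).trans (by rw [norm_neg])
    linarith
  have hne : ∀ z ∈ Metric.ball z₀ (ε / 2), ∀ ξ ∈ S, z - ξ ≠ 0 := by
    intro z hz ξ hξ h0
    have := hlow z hz ξ hξ
    rw [h0, norm_zero] at this
    linarith
  have hmeas : ∀ z : ℂ, AEStronglyMeasurable (fun ξ => φ ξ / (z - ξ)) (volume.restrict S) := by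
    intro z
    have h1 : Measurable fun ξ : ℂ => (z - ξ)⁻¹ := (measurable_const.sub measurable_id).inv
    exact hφ.aestronglyMeasurable.mul h1.aestronglyMeasurable
  have hmeas' : AEStronglyMeasurable (fun ξ => -(φ ξ / (z₀ - ξ) ^ 2)) (volume.restrict S) := by
    have h1 : Measurable fun ξ : ℂ => ((z₀ - ξ) ^ 2)⁻¹ :=
      ((measurable_const.sub measurable_id).pow_const 2).inv
    exact (hφ.aestronglyMeasurable.mul h1.aestronglyMeasurable).neg
  have key := hasDerivAt_integral_of_dominated_loc_of_deriv_le (μ := volume.restrict S)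
    (F := fun z ξ => φ ξ / (z - ξ)) (F' := fun z ξ => -(φ ξ / (z - ξ) ^ 2)) (x₀ := z₀)
    (s := Metric.ball z₀ (ε / 2)) (bound := fun ξ => ‖φ ξ‖ * ((ε / 2) ^ 2)⁻¹)
    (Metric.ball_mem_nhds z₀ (by linarith)) (Eventually.of_forall hmeas)
    (by
      refine Integrable.mono' (hφ.norm.mul_const (ε / 2)⁻¹) (hmeas z₀) ?_
      refine ae_restrict_of_forall_mem hS fun ξ hξ => ?_
      rw [norm_div, div_eq_mul_inv]
      refine mul_le_mul_of_nonneg_left ?_ (norm_nonneg _)
      exact inv_anti₀ (by linarith)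
        (hlow z₀ (Metric.mem_ball_self (by linarith)) ξ hξ))
    hmeas'
    (by
      refine ae_restrict_of_forall_mem hS fun ξ hξ => ?_
      intro z hz
      rw [norm_neg, norm_div, norm_pow, div_eq_mul_inv]
      refine mul_le_mul_of_nonneg_left ?_ (norm_nonneg _)
      exact inv_anti₀ (by positivity) (pow_le_pow_left₀ (by linarith) (hlow z hz ξ hξ) 2))
    (hφ.norm.mul_const _)
    (by
      refine ae_restrict_of_forall_mem hS fun ξ hξ => ?_
      intro z hz
      have h1 : HasDerivAt (fun z : ℂ => z - ξ) 1 z := (hasDerivAt_id z).sub_const ξ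
      have h2 := (h1.inv (hne z hz ξ hξ)).const_mul (φ ξ)
      refine h2.congr_deriv ?_
      rw [div_eq_mul_inv, div_eq_mul_inv]
      ring)
  have h3 : DifferentiableAt ℂ (TC φ S) z₀ := (key.2.differentiableAt).const_mul _
  exact h3.differentiableWithinAt

end

end Pool.Agent.DL
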