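import Pool.Agent.helper67.DL.SpecG

/-!
# dl:BN. The two Higgs bundles are not isomorphic
-/

set_option autoImplicit false

namespace Pool.Agent.DL

open Matrix Complex
open scoped ComplexOrder Manifold ContDiff

theorem BN (hEX : EX_stmt) : BN_stmt := by
  intro X _ _ D hD a t ha ht hiso
  obtain ⟨G, hG, hdet⟩ := hiso
  obtain ⟨-, -, -, -, -, -, -, -, hrat, -, hU1, hq⟩ := hEX X D hD a t ha ht
  have hx : D.x1 ∈ (cov D a).U true := hD.x1mem
  have hcomm := hG.comm true true D.x1 ⟨hx, hx⟩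
  have hd := hdet true true D.x1 ⟨hx, hx⟩
  have hr : quo ((cov D a).η true) ((cov D a).η true) 1 D.x1 = 1 := hrat true D.x1 hx
  obtain ⟨s0, q0⟩ := hU1 D.x1 hD.x1mem
  obtain ⟨e2, e3⟩ := hq true D.x1 hx
  rw [hD.x1z] at s0 q0
  have s1 : quo (sF D a t) ((cov D a).η true) 1 D.x1 = 0 := by rw [s0]; ring
  have q1 : quo (qF D a t) ((cov D a).η true) 2 D.x1 = 0 := by rw [q0]; ring
  rw [s1, q1] at e2 e3
  have e2' : quo (q2F D a t) ((cov D a).η true) 2 D.x1 = 0 := by rw [e2]; ring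
  have e3' : quo (q3F D a t) ((cov D a).η true) 3 D.x1 = 0 := by rw [e3]; ring
  have hA : (BB D a t).A true D.x1 = !![0, 0, 0; 1, 0, 0; 0, 0, 0] := by
    show !![quo (sF D a t) ((cov D a).η true) 1 D.x1, quo (qF D a t) ((cov D a).η true) 2 D.x1, 0;
      1, quo (sF D a t) ((cov D a).η true) 1 D.x1, 0;
      0, 0, -2 * quo (sF D a t) ((cov D a).η true) 1 D.x1] = !![0, 0, 0; 1, 0, 0; 0, 0, 0]
    rw [s1, q1]
    simp
  have hF : (hitchin3 (cov D a) (q2F D a t) (q3F D a t)).A true D.x1 =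
      !![0, 0, 0; 1, 0, 0; 0, 1, 0] := by
    show !![0, 0, quo (q3F D a t) ((cov D a).η true) 3 D.x1;
      1, 0, quo (q2F D a t) ((cov D a).η true) 2 D.x1; 0, 1, 0] = !![0, 0, 0; 1, 0, 0; 0, 1, 0]
    rw [e2', e3']
  have hc : (BB D a t).A true D.x1 * G true true D.x1 = G true true D.x1 *
      (hitchin3 (cov D a) (q2F D a t) (q3F D a t)).A true D.x1 := by
    rw [hcomm]
    show quo ((cov D a).η true) ((cov D a).η true) 1 D.x1 • _ = _
    rw [hr, one_smul]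
  rw [hA, hF] at hc
  set g := G true true D.x1 with hg
  have h2 : g * (!![0, 0, 0; 1, 0, 0; 0, 1, 0] * !![0, 0, 0; 1, 0, 0; 0, 1, 0]) = 0 := by
    rw [← mul_assoc, ← hc, mul_assoc, ← hc, ← mul_assoc]
    have : (!![0, 0, 0; 1, 0, 0; 0, 0, 0] : Matrix (Fin 3) (Fin 3) ℂ) *
        !![0, 0, 0; 1, 0, 0; 0, 0, 0] = 0 := by
      ext i j
      fin_cases i <;> fin_cases j <;> simp [Matrix.mul_apply, Fin.sum_univ_three]
    rw [this, zero_mul]
  have h3 : (!![0, 0, 0; 1, 0, 0; 0, 1, 0] * !![0, 0, 0; 1, 0, 0; 0, 1, 0] :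
      Matrix (Fin 3) (Fin 3) ℂ) = 0 := by
    have := congrArg (fun M => g⁻¹ * M) h2
    simp only [mul_zero] at this
    rwa [← mul_assoc, Matrix.nonsing_inv_mul _ hd, one_mul] at this
  have h4 := congrFun (congrFun h3 2) 0
  simp [Matrix.mul_apply, Fin.sum_univ_three] at h4

end Pool.Agent.DL

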