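import Pool.Agent.helper67.DL.SpecG

/-!
# dl:BZ. Step 3: a harmonic metric of the rank two part is diagonal
-/

set_option autoImplicit false

namespace Pool.Agent.DL

open Matrix Complex
open scoped ComplexOrder Manifold ContDiff

/-- The matrix `diag(1,-1)`. -/
def BZ_E : Matrix (Fin 2) (Fin 2) ℂ := diagonal ![1, -1]

theorem BZ_EE : BZ_E * BZ_E = 1 := by
  unfold BZ_E
  rw [diagonal_mul_diagonal, ← diagonal_one]
  congr 1
  ext i
  fin_cases i <;> simp

theorem BZ_Einv : BZ_E⁻¹ = BZ_E := Matrix.inv_eq_left_inv BZ_EE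

theorem BZ_Eh : BZ_Eᴴ = BZ_E := by
  unfold BZ_E
  rw [diagonal_conjTranspose]
  congr 1
  ext i
  fin_cases i <;> simp

theorem BZ_det : IsUnit BZ_E.det := by
  have h := congrArg Matrix.det BZ_EE
  rw [det_mul, det_one] at h
  exact IsUnit.of_mul_eq_one _ h

theorem BZ_gcomm {X : Type} [TopologicalSpace X] [ChartedSpace ℂ X] (D : CD X) (i j : Bool)
    (x : X) : BZ_E * gV D i j x = gV D i j x * BZ_E := by
  cases i <;> cases j
  · show BZ_E * 1 = 1 * BZ_E
    rw [mul_one, one_mul]
  · show BZ_E * diagonal _ = diagonal _ * BZ_E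
    unfold BZ_E
    rw [diagonal_mul_diagonal, diagonal_mul_diagonal]
    congr 1
    ext i
    ring
  · show BZ_E * diagonal _ = diagonal _ * BZ_E
    unfold BZ_E
    rw [diagonal_mul_diagonal, diagonal_mul_diagonal]
    congr 1
    ext i
    ring
  · show BZ_E * 1 = 1 * BZ_E
    rw [mul_one, one_mul]

theorem BZ_entry (M : Matrix (Fin 2) (Fin 2) ℂ) : (BZ_E * M * BZ_E) 0 0 = M 0 0 ∧
    (BZ_E * M * BZ_E) 0 1 = -M 0 1 ∧ (BZ_E * M * BZ_E) 1 0 = -M 1 0 ∧
    (BZ_E * M * BZ_E) 1 1 = M 1 1 := by
  unfold BZ_E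
  simp [Matrix.mul_apply, Matrix.diagonal]

theorem BZ (hGE : GE_stmt) (hUN : UN_stmt) (hND : ND_stmt) (hBA : BA_stmt) : BZ_stmt := by
  intro X _ _ D hT hD a t ha ht K hK
  have ha0 : 0 < a := by linarith
  have hV : (BV D a t).Valid := (hBA X D hD a t ha0 ht).2.2.1
  -- the image metric
  set K' : Bool → X → Matrix (Fin 2) (Fin 2) ℂ := fun i x => BZ_E * K i x * BZ_E with hK'
  have hH' : Harm (BV D a t) K' := by
    refine ⟨fun i j x hx => ?_, fun i e he => ?_⟩
    · have h1 : K j x = (gV D i j x)ᴴ * K i x * gV D i j x := hK.glue i j x hx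
      show BZ_E * K j x * BZ_E = (gV D i j x)ᴴ * (BZ_E * K i x * BZ_E) * gV D i j x
      have h2 := BZ_gcomm D i j x
      have h3 : BZ_E * (gV D i j x)ᴴ = (gV D i j x)ᴴ * BZ_E := by
        have := congrArg Matrix.conjTranspose h2
        rw [conjTranspose_mul, conjTranspose_mul, BZ_Eh] at this
        exact this.symm
      rw [h1]
      calc BZ_E * ((gV D i j x)ᴴ * K i x * gV D i j x) * BZ_E
          = (BZ_E * (gV D i j x)ᴴ) * K i x * (gV D i j x * BZ_E) := by
            simp only [mul_assoc]
        _ = ((gV D i j x)ᴴ * BZ_E) * K i x * (BZ_E * gV D i j x) := by rw [h3, h2]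
        _ = (gV D i j x)ᴴ * (BZ_E * K i x * BZ_E) * gV D i j x := by simp only [mul_assoc]
    · have hop : IsOpen (e.target ∩ e.symm ⁻¹' (cov D a).U i) :=
        e.isOpen_inter_preimage_symm (hV.cov.1 i)
      have h1 := hK.loc i e he
      have hEm : HM (e.target ∩ e.symm ⁻¹' (cov D a).U i) (fun _ => BZ_E) := fun p q =>
        differentiableOn_const _
      obtain ⟨h2, -, -, -⟩ := hGE 2 _ _ _ (fun _ => BZ_E) _ hop h1 hEm (fun z _ => BZ_det)
      obtain ⟨-, h3, -, -⟩ := hGE 2 _ _ _ (fun _ => BZ_E) _ hop h2 hEm (fun z _ => BZ_det)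
      obtain ⟨-, -, h4, -⟩ := hGE 2 _ _ _ (fun _ => BZ_E) _ hop h3 hEm (fun z _ => BZ_det)
      have h5 := h4 (fun z => 2 * quo (sF D a t) ((cov D a).η i) 1 (e.symm z))
      rw [BZ_Einv, BZ_Eh] at h5
      have h6 : (fun z => -(BZ_E * (BV D a t).A i (e.symm z) * BZ_E) +
          (2 * quo (sF D a t) ((cov D a).η i) 1 (e.symm z)) • (1 : Matrix (Fin 2) (Fin 2) ℂ)) =
          fun z => (BV D a t).A i (e.symm z) := by
        funext z
        obtain ⟨p1, p2, p3, p4⟩ := BZ_entry ((BV D a t).A i (e.symm z))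
        have a0 : (BV D a t).A i (e.symm z) 0 0 = quo (sF D a t) ((cov D a).η i) 1 (e.symm z) :=
          rfl
        have a1 : (BV D a t).A i (e.symm z) 1 1 = quo (sF D a t) ((cov D a).η i) 1 (e.symm z) :=
          rfl
        ext p q
        fin_cases p <;> fin_cases q
        · show -(BZ_E * (BV D a t).A i (e.symm z) * BZ_E) 0 0 + _ * 1 =
            (BV D a t).A i (e.symm z) 0 0
          rw [p1, a0]
          ring
        · show -(BZ_E * (BV D a t).A i (e.symm z) * BZ_E) 0 1 + _ * 0 =
            (BV D a t).A i (e.symm z) 0 1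
          rw [p2]
          ring
        · show -(BZ_E * (BV D a t).A i (e.symm z) * BZ_E) 1 0 + _ * 0 =
            (BV D a t).A i (e.symm z) 1 0
          rw [p3]
          ring
        · show -(BZ_E * (BV D a t).A i (e.symm z) * BZ_E) 1 1 + _ * 1 =
            (BV D a t).A i (e.symm z) 1 1
          rw [p4, a1]
          ring
      rw [h6] at h5
      exact h5
  -- the comparison endomorphism
  have hpos : ∀ i, ∀ x ∈ (cov D a).U i, (K i x).PosDef := by
    intro i x hx
    have h1 := (hK.loc i (chartAt ℂ x) (chart_mem_atlas ℂ x)).pos (chartAt ℂ x x) ?_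
    · simpa only [(chartAt ℂ x).left_inv (mem_chart_source ℂ x)] using h1
    · refine ⟨(chartAt ℂ x).map_source (mem_chart_source ℂ x), ?_⟩
      show (chartAt ℂ x).symm (chartAt ℂ x x) ∈ (cov D a).U i
      rw [(chartAt ℂ x).left_inv (mem_chart_source ℂ x)]
      exact hx
  have hun := hUN X hT 2 (BV D a t) hV K K' hK hH'
  set S : Bool → X → Matrix (Fin 2) (Fin 2) ℂ := fun i x => (K i x)⁻¹ * K' i x with hS
  have hKS : ∀ i, ∀ x ∈ (cov D a).U i, K i x * S i x = K' i x := by
    intro i x hx
    have hdet : IsUnit (K i x).det := (hpos i x hx).isUnit.map Matrix.detMonoidHom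
    show K i x * ((K i x)⁻¹ * K' i x) = K' i x
    rw [← mul_assoc, Matrix.mul_nonsing_inv _ hdet, one_mul]
  have hcanc : ∀ i, ∀ x ∈ (cov D a).U i, ∀ M N : Matrix (Fin 2) (Fin 2) ℂ,
      K i x * M = K i x * N → M = N := by
    intro i x hx M N h
    have hdet : IsUnit (K i x).det := (hpos i x hx).isUnit.map Matrix.detMonoidHom
    have := congrArg (fun P => (K i x)⁻¹ * P) h
    simp only [← mul_assoc, Matrix.nonsing_inv_mul _ hdet, one_mul] at this
    exact this
  -- transition
  have htr : ∀ x ∈ D.U0 ∩ D.U1, S false x 1 0 = D.ν x ^ (2 * 1) * S true x 1 0 := by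
    intro x hx
    have hx0 : x ∈ (cov D a).U false := hx.1
    have hx1 : x ∈ (cov D a).U true := hx.2
    have k1 : K true x = (gV D false true x)ᴴ * K false x * gV D false true x :=
      hK.glue false true x ⟨hx0, hx1⟩
    have k2 : K' true x = (gV D false true x)ᴴ * K' false x * gV D false true x :=
      hH'.glue false true x ⟨hx0, hx1⟩
    have hm := hD.mul x hx
    have hgdet : (gV D false true x).det = 1 := by
      show (diagonal ![D.ζ x, D.ν x]).det = 1
      rw [det_diagonal, Fin.prod_univ_two]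
      exact hm
    have hghdet : IsUnit ((gV D false true x)ᴴ).det := by
      rw [det_conjTranspose, hgdet]
      simp
    have e1 : (gV D false true x)ᴴ * (K false x * (gV D false true x * S true x)) =
        (gV D false true x)ᴴ * (K false x * (S false x * gV D false true x)) := by
      calc (gV D false true x)ᴴ * (K false x * (gV D false true x * S true x))
          = ((gV D false true x)ᴴ * K false x * gV D false true x) * S true x := by
            simp only [mul_assoc]
        _ = K' true x := by rw [← k1, hKS true x hx1]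
        _ = (gV D false true x)ᴴ * (K false x * S false x) * gV D false true x := by
            rw [k2, hKS false x hx0]
        _ = _ := by simp only [mul_assoc]
    have e2 : K false x * (gV D false true x * S true x) =
        K false x * (S false x * gV D false true x) := by
      have := congrArg (fun P => ((gV D false true x)ᴴ)⁻¹ * P) e1
      simp only [← mul_assoc, Matrix.nonsing_inv_mul _ hghdet, one_mul] at this
      simpa only [mul_assoc] using this
    have e3 := hcanc false x hx0 _ _ e2
    have e4 := congrFun (congrFun e3 1) 0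
    have e5 : D.ν x * S true x 1 0 = S false x 1 0 * D.ζ x := by
      have l1 : (gV D false true x * S true x) 1 0 = D.ν x * S true x 1 0 := by
        show (diagonal ![D.ζ x, D.ν x] * S true x) 1 0 = _
        rw [Matrix.diagonal_mul]
        rfl
      have l2 : (S false x * gV D false true x) 1 0 = S false x 1 0 * D.ζ x := by
        show (S false x * diagonal ![D.ζ x, D.ν x]) 1 0 = _
        rw [Matrix.mul_diagonal]
        rfl
      rw [← l1, ← l2]
      exact e4
    linear_combination (-(D.ν x)) * e5 + (-(S false x 1 0)) * hm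
  have hnd := hND X D hT hD 1 (fun x => S false x 1 0) (fun x => S true x 1 0) le_rfl
    ((hun false).1 1 0) ((hun true).1 1 0) htr
  have hβ : ∀ i, ∀ x ∈ (cov D a).U i, S i x 1 0 = 0 := by
    intro i x hx
    cases i
    · exact hnd.1 x hx
    · exact hnd.2 x hx
  intro i x hx
  have hc := (hun i).2 x hx
  have hc' : (BV D a t).A i x * S i x = S i x * (BV D a t).A i x := hc
  have c10 := congrFun (congrFun hc' 1) 0
  have c11 := congrFun (congrFun hc' 1) 1
  have A00 : (BV D a t).A i x 0 0 = quo (sF D a t) ((cov D a).η i) 1 x := rfl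
  have A01 : (BV D a t).A i x 0 1 = quo (qF D a t) ((cov D a).η i) 2 x := rfl
  have A10 : (BV D a t).A i x 1 0 = 1 := rfl
  have A11 : (BV D a t).A i x 1 1 = quo (sF D a t) ((cov D a).η i) 1 x := rfl
  rw [Matrix.mul_apply, Matrix.mul_apply, Fin.sum_univ_two, Fin.sum_univ_two, A10, A11, A00,
    hβ i x hx] at c10
  rw [Matrix.mul_apply, Matrix.mul_apply, Fin.sum_univ_two, Fin.sum_univ_two, A10, A11, A01,
    hβ i x hx] at c11
  have hS01 : S i x 0 1 = 0 := by linear_combination c11
  have hS11 : S i x 1 1 = S i x 0 0 := by linear_combination -c10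
  have hks := hKS i x hx
  obtain ⟨p1, p2, p3, p4⟩ := BZ_entry (K i x)
  have f00 := congrFun (congrFun hks 0) 0
  have f01 := congrFun (congrFun hks 0) 1
  have f10 := congrFun (congrFun hks 1) 0
  have g00 : K' i x 0 0 = K i x 0 0 := p1
  have g01 : K' i x 0 1 = -K i x 0 1 := p2
  have g10 : K' i x 1 0 = -K i x 1 0 := p3
  rw [Matrix.mul_apply, Fin.sum_univ_two, hβ i x hx, g00] at f00
  rw [Matrix.mul_apply, Fin.sum_univ_two, hS01, hS11, g01] at f01
  rw [Matrix.mul_apply, Fin.sum_univ_two, hβ i x hx, g10] at f10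
  have hne : K i x 0 0 ≠ 0 := ((hpos i x hx).diag_pos (i := 0)).ne'
  have hα : S i x 0 0 = 1 := by
    apply mul_left_cancel₀ hne
    rw [mul_one]
    linear_combination f00
  rw [hα] at f01 f10
  constructor
  · linear_combination f01 / 2
  · linear_combination f10 / 2

end Pool.Agent.DL

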