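import Pool.Agent.helper67.DL.SpecL

/-!
# dl:LW. The operator `lap` is `∂̄∂`
-/

set_option autoImplicit false

namespace Pool.Agent.DL

open Matrix Complex Filter Topology

/-- Second derivative along a line. -/
theorem LW_line (u : ℂ → ℝ) (z e : ℂ) (h : ContDiffAt ℝ 2 u z) :
    iteratedDeriv 2 (fun t : ℝ => u (z + t * e)) 0 = fderiv ℝ (fderiv ℝ u) z e e := by
  rw [iteratedDeriv_succ, iteratedDeriv_one]
  have hpath : ∀ t : ℝ, HasDerivAt (fun t : ℝ => z + (t : ℂ) * e) e t := by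
    intro t
    have h1 : HasDerivAt (fun t : ℝ => (t : ℂ)) 1 t := Complex.ofRealCLM.hasDerivAt
    simpa using (h1.mul_const e).const_add z
  have hcont : ContinuousAt (fun t : ℝ => z + (t : ℂ) * e) 0 := (hpath 0).continuousAt
  have hz0 : z + ((0 : ℝ) : ℂ) * e = z := by simp
  have hev : ∀ᶠ w in 𝓝 z, DifferentiableAt ℝ u w := by
    have h1 := h.eventually (by simp)
    exact h1.mono fun w hw => hw.differentiableAt (by norm_num)
  have hev2 : ∀ᶠ t : ℝ in 𝓝 0, DifferentiableAt ℝ u (z + (t : ℂ) * e) := by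
    apply hcont.eventually
    show ∀ᶠ y in 𝓝 (z + ((0 : ℝ) : ℂ) * e), DifferentiableAt ℝ u y
    rw [hz0]
    exact hev
  have e1 : deriv (fun t : ℝ => u (z + t * e)) =ᶠ[𝓝 0]
      fun t : ℝ => fderiv ℝ u (z + (t : ℂ) * e) e := by
    refine hev2.mono fun t ht => ?_
    exact (ht.hasFDerivAt.comp_hasDerivAt t (hpath t)).deriv
  rw [e1.deriv_eq]
  have h2 : HasFDerivAt (fderiv ℝ u) (fderiv ℝ (fderiv ℝ u) z) z := by
    have h3 : ContDiffAt ℝ 1 (fderiv ℝ u) z := h.fderiv_right (by norm_num)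
    exact (h3.differentiableAt (by norm_num)).hasFDerivAt
  have h4 : HasFDerivAt (fderiv ℝ u) (fderiv ℝ (fderiv ℝ u) z) (z + ((0 : ℝ) : ℂ) * e) := by
    rw [hz0]; exact h2
  have h5 : HasDerivAt (fun t : ℝ => fderiv ℝ u (z + (t : ℂ) * e))
      (fderiv ℝ (fderiv ℝ u) z e) 0 := h4.comp_hasDerivAt (0 : ℝ) (hpath 0)
  exact (h5.clm_apply (hasDerivAt_const (0 : ℝ) e)).deriv.trans (by simp)

theorem LW : LW_stmt := by
  intro u z h
  have hev : ∀ᶠ w in 𝓝 z, DifferentiableAt ℝ u w := by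
    have h1 := h.eventually (by simp)
    exact h1.mono fun w hw => hw.differentiableAt (by norm_num)
  have h2 : HasFDerivAt (fderiv ℝ u) (fderiv ℝ (fderiv ℝ u) z) z := by
    have h3 : ContDiffAt ℝ 1 (fderiv ℝ u) z := h.fderiv_right (by norm_num)
    exact (h3.differentiableAt (by norm_num)).hasFDerivAt
  set S := fderiv ℝ (fderiv ℝ u) z with hS
  have hsym : S 1 I = S I 1 := by
    have := h.isSymmSndFDerivAt (by simp)
    exact this 1 I
  have e1 : (fun w => dz (fun v => ((u v : ℝ) : ℂ)) w) =ᶠ[𝓝 z]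
      fun w => (((fderiv ℝ u w 1 : ℝ) : ℂ) - I * ((fderiv ℝ u w I : ℝ) : ℂ)) / 2 := by
    refine hev.mono fun w hw => ?_
    have h3 : HasFDerivAt (fun v => ((u v : ℝ) : ℂ)) (Complex.ofRealCLM.comp (fderiv ℝ u w)) w :=
      Complex.ofRealCLM.hasFDerivAt.comp w hw.hasFDerivAt
    simp only [dz, h3.fderiv]
    rfl
  have hd : ∀ e : ℂ, HasFDerivAt (fun w => ((fderiv ℝ u w e : ℝ) : ℂ))
      (Complex.ofRealCLM.comp (S.flip e)) z := by
    intro e
    have h3 : HasFDerivAt (fun w => fderiv ℝ u w e) (S.flip e) z := by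
      have h7 := h2.clm_apply (hasFDerivAt_const e z)
      rw [ContinuousLinearMap.comp_zero, zero_add] at h7
      exact h7
    exact Complex.ofRealCLM.hasFDerivAt.comp z h3
  have hG : HasFDerivAt
      (fun w => (((fderiv ℝ u w 1 : ℝ) : ℂ) - I * ((fderiv ℝ u w I : ℝ) : ℂ)) / 2)
      ((1 / 2 : ℂ) • (Complex.ofRealCLM.comp (S.flip 1) -
        I • Complex.ofRealCLM.comp (S.flip I))) z := by
    have h4 := ((hd 1).sub ((hd I).const_mul I)).const_mul (1 / 2 : ℂ)
    refine h4.congr_of_eventuallyEq (Filter.Eventually.of_forall fun w => ?_)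
    simp only [Pi.sub_apply]
    ring
  have hlap1 : iteratedDeriv 2 (fun t : ℝ => u (z + t)) 0 = S 1 1 := by
    have := LW_line u z 1 h
    simpa using this
  have hlapI : iteratedDeriv 2 (fun t : ℝ => u (z + t * I)) 0 = S I I := LW_line u z I h
  unfold lap
  rw [hlap1, hlapI]
  unfold dzb
  rw [e1.fderiv_eq, hG.fderiv]
  simp only [ContinuousLinearMap.smul_apply, ContinuousLinearMap.sub_apply,
    ContinuousLinearMap.comp_apply, ContinuousLinearMap.flip_apply, Complex.ofRealCLM_apply,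
    smul_eq_mul]
  rw [hsym]
  push_cast
  have hI : I * I = -1 := Complex.I_mul_I
  linear_combination ((1 / 4 : ℂ) * ((S I I : ℝ) : ℂ)) * hI

end Pool.Agent.DL

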