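import Pool.Agent.helper67.DL.SpecX

/-!
# dl:X04. The charts `G c`
-/

set_option autoImplicit false

namespace Pool.Agent.DL

open Matrix Complex Filter Topology
open scoped ComplexOrder Manifold ContDiff

theorem X04_sq {c : ℂ} (hc : c ^ 4 = 1) : c ^ 2 = 1 ∨ c ^ 2 = -1 := by
  have h : (c ^ 2 - 1) * (c ^ 2 + 1) = 0 := by linear_combination hc
  rcases mul_eq_zero.1 h with h | h
  · exact Or.inl (by linear_combination h)
  · exact Or.inr (by linear_combination h)

theorem X04_ne {c : ℂ} (hc : c ^ 4 = 1) : c ≠ 0 := by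
  rintro rfl
  norm_num at hc

/-- A number with square `-1` has real part `0`. -/
theorem X04_re {v : ℂ} (h : v ^ 2 = -1) : ¬ 0 < v.re := by
  intro hv
  have h1 : (v - I) * (v + I) = 0 := by
    linear_combination h - I_sq
  rcases mul_eq_zero.1 h1 with h2 | h2
  · have : v = I := by linear_combination h2
    rw [this] at hv
    simp at hv
  · have : v = -I := by linear_combination h2
    rw [this] at hv
    simp at hv

/-- On the source: the basic facts. -/
theorem X04_src (h1 : X01_stmt) {c : ℂ} (hc : c ^ 4 = 1) {p : XT} (hp : p ∈ gS c) :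
    1 + gx c p ^ 4 ≠ 0 ∧ mm (gx c p ^ 4) = (fv p.1.2 / c) ^ 2 ∧
      (c ^ 2 = 1 → p.1.1 ≠ OnePoint.infty) ∧ (c ^ 2 ≠ 1 → p.1.1 ≠ OnePoint.some 0) := by
  obtain ⟨hY, hre⟩ := hp
  obtain ⟨-, -, -, -, hv, -, -⟩ := h1
  have hc0 := X04_ne hc
  have hiv0 : iv OnePoint.infty = 0 := rfl
  obtain ⟨q, hq⟩ := p
  rcases hq with ⟨z, y, rfl, h⟩ | ⟨y, rfl, h⟩ | ⟨z, rfl, h⟩
  · -- finite points
    have hre' : 0 < (y / c).re := hre
    have hz : 1 + z ^ 4 ≠ 0 := by
      intro h0
      rw [h0, zero_mul] at h
      norm_num at h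
    rcases X04_sq hc with hc2 | hc2
    · have hg : gx c ⟨(OnePoint.some z, OnePoint.some y), Or.inl ⟨z, y, rfl, h⟩⟩ = z := by
        unfold gx
        rw [if_pos hc2]
        rfl
      rw [hg]
      refine ⟨hz, ?_, fun _ => OnePoint.coe_ne_infty z, fun h0 => absurd hc2 h0⟩
      show (1 - z ^ 4) / (1 + z ^ 4) = (y / c) ^ 2
      rw [div_pow, hc2, div_one, div_eq_iff hz]
      linear_combination -h
    · have hc21 : c ^ 2 ≠ 1 := by
        rw [hc2]; norm_num
      have hz0 : z ≠ 0 := by
        rintro rfl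
        apply X04_re (v := y / c) _ hre'
        rw [div_pow, hc2]
        have : y ^ 2 = 1 := by linear_combination h
        rw [this]; norm_num
      have hg : gx c ⟨(OnePoint.some z, OnePoint.some y), Or.inl ⟨z, y, rfl, h⟩⟩ = z⁻¹ := by
        unfold gx
        rw [if_neg hc21]
        rfl
      rw [hg]
      have hz4 : z ^ 4 ≠ 0 := pow_ne_zero _ hz0
      have e1 : 1 + z⁻¹ ^ 4 = (1 + z ^ 4) / z ^ 4 := by
        field_simp
        ring
      have hne : 1 + z⁻¹ ^ 4 ≠ 0 := by
        rw [e1]
        exact div_ne_zero hz hz4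
      refine ⟨hne, ?_, fun h0 => absurd h0 hc21, fun _ h0 => hz0 (OnePoint.coe_injective h0)⟩
      show (1 - z⁻¹ ^ 4) / (1 + z⁻¹ ^ 4) = (y / c) ^ 2
      rw [div_pow, hc2, div_eq_iff hne, e1]
      field_simp
      linear_combination h
  · -- the points over infinity
    have hre' : 0 < (y / c).re := hre
    have hy : y ^ 2 = -1 := by linear_combination h
    rcases X04_sq hc with hc2 | hc2
    · exact absurd hre' (X04_re (by rw [div_pow, hc2, hy]; norm_num))
    · have hc21 : c ^ 2 ≠ 1 := by
        rw [hc2]; norm_num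
      have hg : gx c ⟨(OnePoint.infty, OnePoint.some y), Or.inr (Or.inl ⟨y, rfl, h⟩)⟩ = 0 := by
        unfold gx
        rw [if_neg hc21]
        rfl
      rw [hg]
      refine ⟨by norm_num, ?_, fun h0 => absurd h0 hc21, fun _ => OnePoint.infty_ne_coe 0⟩
      show (1 - (0 : ℂ) ^ 4) / (1 + 0 ^ 4) = (y / c) ^ 2
      rw [div_pow, hc2, hy]
      norm_num
  · exact absurd rfl hY

/-- The inverse map has values in the surface. -/
theorem X04_rel (h2 : X02_stmt) {c : ℂ} (hc : c ^ 4 = 1) {x : ℂ} (hx : x ∈ gT) :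
    RelX (gi c x) := by
  obtain ⟨hx1, hx2⟩ := hx
  have hr := (h2.1 _ hx2).1
  set w := r2 (mm (x ^ 4)) with hw
  have hmm : mm (x ^ 4) = (1 - x ^ 4) / (1 + x ^ 4) := rfl
  have hw2 : w ^ 2 * (1 + x ^ 4) = 1 - x ^ 4 := by
    rw [hr, hmm]
    field_simp
  rcases X04_sq hc with hc2 | hc2
  · left
    refine ⟨x, c * w, ?_, ?_⟩
    · unfold gi
      rw [if_pos hc2]
    · rw [mul_pow, hc2]
      linear_combination hw2
  · have hc21 : c ^ 2 ≠ 1 := by
      rw [hc2]; norm_num
    by_cases hx0 : x = 0
    · right; left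
      refine ⟨c * w, ?_, ?_⟩
      · unfold gi
        rw [if_neg hc21, hx0]
        unfold ic
        rw [if_pos rfl, hw, hx0]
      · rw [mul_pow, hc2]
        rw [hx0] at hw2
        linear_combination -hw2
    · left
      refine ⟨x⁻¹, c * w, ?_, ?_⟩
      · unfold gi ic
        rw [if_neg hc21, if_neg hx0]
      · rw [mul_pow, hc2]
        have hx4 : x ^ 4 ≠ 0 := pow_ne_zero _ hx0
        have : w ^ 2 = (1 - x ^ 4) / (1 + x ^ 4) := by rw [hr, hmm]
        rw [this]
        field_simp
        ring

open Classical in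
/-- The inverse map. -/
noncomputable def X04_inv (h2 : X02_stmt) {c : ℂ} (hc : c ^ 4 = 1) (x : ℂ) : XT :=
  if h : x ∈ gT then ⟨gi c x, X04_rel h2 hc h⟩ else x0X

theorem X04_inv_val (h2 : X02_stmt) {c : ℂ} (hc : c ^ 4 = 1) {x : ℂ} (hx : x ∈ gT) :
    (X04_inv h2 hc x).1 = gi c x := by
  unfold X04_inv
  rw [dif_pos hx]

theorem X04_gS_open (h1 : X01_stmt) (c : ℂ) : IsOpen (gS c) := by
  have h3 : IsOpen ({OnePoint.infty}ᶜ ∩ fv ⁻¹' {y : ℂ | 0 < (y / c).re} : Set P1) :=
    h1.1.isOpen_inter_preimage isOpen_compl_singleton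
      (isOpen_lt continuous_const (Complex.continuous_re.comp (by fun_prop)))
  have h4 : Continuous fun p : XT => p.1.2 := continuous_snd.comp continuous_subtype_val
  exact h3.preimage h4

theorem X04_gT_open : IsOpen gT := by
  have h3 : IsOpen {x : ℂ | 1 + x ^ 4 ≠ 0} := isOpen_ne_fun (by fun_prop) continuous_const
  have h4 : ContinuousOn (fun x : ℂ => mm (x ^ 4)) {x : ℂ | 1 + x ^ 4 ≠ 0} := by
    unfold mm
    exact ContinuousOn.div (by fun_prop) (by fun_prop) fun x hx => hx
  exact h4.isOpen_inter_preimage h3 isOpen_slitPlane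

theorem X04 (h1 : X01_stmt) (h2 : X02_stmt) : X04_stmt := by
  intro c hc
  have hc0 := X04_ne hc
  obtain ⟨o1, o2, o3, o4, o5, o6, o7⟩ := id h1
  have hgi : ∀ x, (gi c x).2 = OnePoint.some (c * r2 (mm (x ^ 4))) := fun x => rfl
  have hgi1 : ∀ x, c ^ 2 = 1 → (gi c x).1 = OnePoint.some x := by
    intro x h
    unfold gi
    rw [if_pos h]
  have hgi2 : ∀ x, c ^ 2 ≠ 1 → (gi c x).1 = ic x := by
    intro x h
    unfold gi
    rw [if_neg h]
  have hms : ∀ p ∈ gS c, gx c p ∈ gT := by
    intro p hp
    obtain ⟨a1, a2, -, -⟩ := X04_src h1 hc hp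
    refine ⟨a1, ?_⟩
    rw [a2]
    exact (h2.2.1 _ hp.2).1
  have hmt : ∀ x ∈ gT, X04_inv h2 hc x ∈ gS c := by
    intro x hx
    have hv := X04_inv_val h2 hc hx
    have hr := (h2.1 _ hx.2).2
    constructor
    · rw [hv, hgi]
      exact OnePoint.coe_ne_infty _
    · rw [hv, hgi, (o5 _).1, mul_div_cancel_left₀ _ hc0]
      exact hr
  have hli : ∀ p ∈ gS c, X04_inv h2 hc (gx c p) = p := by
    intro p hp
    obtain ⟨a1, a2, a3, a4⟩ := X04_src h1 hc hp
    apply Subtype.ext
    rw [X04_inv_val h2 hc (hms p hp)]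
    refine Prod.ext ?_ ?_
    · by_cases h : c ^ 2 = 1
      · rw [hgi1 _ h]
        have hg : gx c p = fv p.1.1 := by
          unfold gx
          rw [if_pos h]
          rfl
        rw [hg]
        exact o7 _ (a3 h)
      · rw [hgi2 _ h]
        have hg : gx c p = iv p.1.1 := by
          unfold gx
          rw [if_neg h]
          rfl
        rw [hg]
        exact o6 _ (a4 h)
    · rw [hgi, a2, (h2.2.1 _ hp.2).2, mul_div_cancel₀ _ hc0]
      exact o7 _ hp.1
  have hri : ∀ x ∈ gT, gx c (X04_inv h2 hc x) = x := by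
    intro x hx
    have hv := X04_inv_val h2 hc hx
    by_cases h : c ^ 2 = 1
    · have hg : gx c (X04_inv h2 hc x) = fv (X04_inv h2 hc x).1.1 := by
        unfold gx
        rw [if_pos h]
        rfl
      rw [hg, hv, hgi1 _ h, (o5 _).1]
    · have hg : gx c (X04_inv h2 hc x) = iv (X04_inv h2 hc x).1.1 := by
        unfold gx
        rw [if_neg h]
        rfl
      rw [hg, hv, hgi2 _ h, (o5 _).2.2.1]
  have hc1 : ContinuousOn (gx c) (gS c) := by
    have hfst : Continuous fun p : XT => p.1.1 := continuous_fst.comp continuous_subtype_val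
    by_cases h : c ^ 2 = 1
    · have hg : gx c = fun p : XT => fv p.1.1 := by
        funext p
        unfold gx
        rw [if_pos h]
        rfl
      rw [hg]
      exact o1.comp hfst.continuousOn fun p hp => (X04_src h1 hc hp).2.2.1 h
    · have hg : gx c = fun p : XT => iv p.1.1 := by
        funext p
        unfold gx
        rw [if_neg h]
        rfl
      rw [hg]
      exact o2.comp hfst.continuousOn fun p hp => (X04_src h1 hc hp).2.2.2 h
  have hc2 : ContinuousOn (X04_inv h2 hc) gT := by
    refine (Topology.IsInducing.subtypeVal (t := {p : P1 × P1 | RelX p})).continuousOn_iff.2 ?_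
    have h3 : ContinuousOn (gi c) gT := by
      have h4 : ContinuousOn (fun x => (gi c x).1) gT := by
        by_cases h : c ^ 2 = 1
        · have : (fun x => (gi c x).1) = fun x : ℂ => (OnePoint.some x : P1) := by
            funext x
            exact hgi1 x h
          rw [this]
          exact OnePoint.continuous_coe.continuousOn
        · have : (fun x => (gi c x).1) = ic := by
            funext x
            exact hgi2 x h
          rw [this]
          exact o3.continuousOn
      have h5 : ContinuousOn (fun x => (gi c x).2) gT := by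
        have h6 : ContinuousOn (fun x : ℂ => c * r2 (mm (x ^ 4))) gT := by
          refine continuousOn_const.mul ?_
          refine h2.2.2.2.2.1.continuousOn.comp ?_ fun x hx => hx.2
          unfold mm
          exact ContinuousOn.div (by fun_prop) (by fun_prop) fun x hx => hx.1
        exact OnePoint.continuous_coe.comp_continuousOn h6
      exact h4.prodMk h5
    exact h3.congr fun x hx => X04_inv_val h2 hc hx
  refine ⟨{ toFun := gx c
            invFun := X04_inv h2 hc
            source := gS c
            target := gT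
            map_source' := fun p hp => hms p hp
            map_target' := fun x hx => hmt x hx
            left_inv' := fun p hp => hli p hp
            right_inv' := fun x hx => hri x hx
            open_source := X04_gS_open h1 c
            open_target := X04_gT_open
            continuousOn_toFun := hc1
            continuousOn_invFun := hc2 }, rfl, rfl, fun p _ => rfl, fun x hx => ?_⟩
  exact X04_inv_val h2 hc hx

end Pool.Agent.DL

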