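import Pool.Agent.helper22.DL.SpecE1

namespace Pool.Agent.DL

open Matrix Complex MeasureTheory Set Filter Topology
open scoped ComplexOrder Manifold ContDiff ComplexConjugate

noncomputable section

theorem ERB (hEKA : EKA_stmt) (hERA : ERA_stmt) : ERB_stmt := by
  intro V φ c z₁ R ρ M h hρ hsub hφ hM hh hV
  have hφ1 : IntegrableOn φ (Metric.ball z₁ ρ) := hφ.mono_set hsub
  have hφ2 : IntegrableOn φ (Metric.ball c R \ Metric.ball z₁ ρ) := hφ.mono_set sdiff_subset
  have hS : MeasurableSet (Metric.ball c R \ Metric.ball z₁ ρ) :=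
    measurableSet_ball.diff measurableSet_ball
  have hmeas : ∀ (z : ℂ) (S : Set ℂ), IntegrableOn φ S →
      AEStronglyMeasurable (fun ξ => φ ξ / (z - ξ)) (volume.restrict S) := by
    intro z S hS
    have h1 : Measurable fun ξ : ℂ => (z - ξ)⁻¹ := (measurable_const.sub measurable_id).inv
    exact hS.aestronglyMeasurable.mul h1.aestronglyMeasurable
  have hi1 : ∀ z, IntegrableOn (fun ξ => φ ξ / (z - ξ)) (Metric.ball z₁ ρ) := by
    intro z
    obtain ⟨C, hC⟩ := hEKA 1 (ρ + ‖z₁‖) zero_le_one one_lt_two (by positivity)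
    have hsub2 : Metric.ball z₁ ρ ⊆ Metric.ball (0 : ℂ) (ρ + ‖z₁‖) := by
      intro x hx
      rw [Metric.mem_ball, dist_zero_right]
      rw [Metric.mem_ball, dist_eq_norm] at hx
      have : ‖x‖ ≤ ‖x - z₁‖ + ‖z₁‖ := by
        simpa using norm_add_le (x - z₁) z₁
      linarith
    have h1 : IntegrableOn (fun ξ : ℂ => M * ‖z - ξ‖ ^ (-1 : ℝ)) (Metric.ball z₁ ρ) :=
      ((hC z).1.mono_set hsub2).const_mul M
    refine Integrable.mono' h1 (hmeas z _ hφ1) ?_
    refine ae_restrict_of_forall_mem measurableSet_ball fun ξ hξ => ?_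
    rw [norm_div, div_eq_mul_inv, Real.rpow_neg_one]
    exact mul_le_mul_of_nonneg_right (hM ξ hξ) (inv_nonneg.2 (norm_nonneg _))
  have hi2 : ∀ z ∈ Metric.ball z₁ ρ,
      IntegrableOn (fun ξ => φ ξ / (z - ξ)) (Metric.ball c R \ Metric.ball z₁ ρ) := by
    intro z hz
    rw [Metric.mem_ball, dist_eq_norm] at hz
    refine Integrable.mono' (hφ2.norm.mul_const (ρ - ‖z - z₁‖)⁻¹) (hmeas z _ hφ2) ?_
    refine ae_restrict_of_forall_mem hS fun ξ hξ => ?_
    have h2 : ρ ≤ ‖ξ - z₁‖ := by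
      have := hξ.2
      rw [Metric.mem_ball, not_lt, dist_eq_norm] at this
      exact this
    have h3 : ‖ξ - z₁‖ ≤ ‖z - ξ‖ + ‖z - z₁‖ := by
      have : ξ - z₁ = -(z - ξ) + (z - z₁) := by ring
      rw [this]
      exact (norm_add_le _ _).trans (by rw [norm_neg])
    rw [norm_div, div_eq_mul_inv]
    refine mul_le_mul_of_nonneg_left ?_ (norm_nonneg _)
    exact inv_anti₀ (by linarith) (by linarith)
  refine ⟨hφ1, fun z => TC φ (Metric.ball c R \ Metric.ball z₁ ρ) z + h z, ?_, ?_⟩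
  · refine DifferentiableOn.add ?_ (hh.mono hsub)
    exact hERA φ _ _ hS hφ2 Metric.isOpen_ball disjoint_sdiff_right
  · intro z hz
    rw [hV z hz, ← add_assoc]
    congr 1
    unfold TC
    rw [← mul_add]
    congr 1
    have e1 : Metric.ball c R = Metric.ball z₁ ρ ∪ (Metric.ball c R \ Metric.ball z₁ ρ) :=
      (union_sdiff_cancel hsub).symm
    conv_lhs => rw [e1]
    exact setIntegral_union disjoint_sdiff_right hS (hi1 z) (hi2 z hz)

end

end Pool.Agent.DL
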